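import Pool.Agent.TTC.StmtsB

/-! # Squad TTC, row TOT: the count over the whole box. -/

set_option autoImplicit false

open Polynomial Finset

namespace Pool.Agent.TTC.H42

theorem tot (hF : FibStmt) (hD : DegStmt) : TotStmt := by
  classical
  intro d δ hδ
  obtain ⟨B, C, hC, hF⟩ := hF d δ hδ
  obtain ⟨C', hC', hD⟩ := hD
  refine ⟨B, 81 * C + 3 * C', by positivity, ?_⟩
  intro H hH
  have hH1 : (1 : ℝ) ≤ (H : ℝ) := by exact_mod_cast hH
  have hHz : (1 : ℤ) ≤ (H : ℤ) := by exact_mod_cast hH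
  have hHpos : (0 : ℝ) < (H : ℝ) := by linarith
  obtain ⟨F, hFd⟩ : ∃ F : Finset (Fin 5 → ℤ), ∀ a, a ∈ F ↔
      (∀ i, |a i| ≤ (H : ℤ) ^ (i.val + 1)) ∧ ¬ Good d B (qp (fun i => a i.castSucc) (a 4)) := by
    refine ⟨(Fintype.piFinset fun i : Fin 5 => Finset.Icc (-((H : ℤ) ^ (i.val + 1)))
      ((H : ℤ) ^ (i.val + 1))).filter fun a => ¬ Good d B (qp (fun i => a i.castSucc) (a 4)), ?_⟩
    intro a
    rw [mem_filter, Fintype.mem_piFinset]
    simp only [Finset.mem_Icc, abs_le]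
  obtain ⟨Q, hQ, hQc⟩ : ∃ Q : Finset (Fin 4 → ℤ), (∀ a, a ∈ Q ↔ Box H a) ∧
      (Q.card : ℝ) ≤ 81 * (H : ℝ) ^ 10 := by
    refine ⟨Fintype.piFinset fun i : Fin 4 => Finset.Icc (-((H : ℤ) ^ (i.val + 1)))
      ((H : ℤ) ^ (i.val + 1)), ?_, ?_⟩
    · intro a
      rw [Fintype.mem_piFinset]
      unfold Box
      simp only [Finset.mem_Icc, abs_le]
    · rw [Fintype.card_piFinset, Nat.cast_prod]
      have h1 : ∀ i : Fin 4, (((Finset.Icc (-((H : ℤ) ^ (i.val + 1)))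
          ((H : ℤ) ^ (i.val + 1))).card : ℕ) : ℝ) ≤ 3 * (H : ℝ) ^ (i.val + 1) := by
        intro i
        have h2 : (((Finset.Icc (-((H : ℤ) ^ (i.val + 1)))
          ((H : ℤ) ^ (i.val + 1))).card : ℕ) : ℤ) = 2 * (H : ℤ) ^ (i.val + 1) + 1 := by
          have h3 : (0 : ℤ) ≤ (H : ℤ) ^ (i.val + 1) := by positivity
          rw [Int.card_Icc, Int.toNat_of_nonneg]
          · ring
          · linarith
        have h3 : (((Finset.Icc (-((H : ℤ) ^ (i.val + 1)))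
          ((H : ℤ) ^ (i.val + 1))).card : ℕ) : ℝ) = 2 * (H : ℝ) ^ (i.val + 1) + 1 := by
          exact_mod_cast h2
        rw [h3]
        have h4 : (1 : ℝ) ≤ (H : ℝ) ^ (i.val + 1) := one_le_pow₀ hH1
        linarith
      refine (Finset.prod_le_prod (fun i _ => Nat.cast_nonneg _) fun i _ => h1 i).trans ?_
      rw [Fin.prod_univ_four]
      apply le_of_eq
      change 3 * (H : ℝ) ^ 1 * (3 * (H : ℝ) ^ 2) * (3 * (H : ℝ) ^ 3) * (3 * (H : ℝ) ^ 4) =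
        81 * (H : ℝ) ^ 10
      ring
  have hS : {a : Fin 5 → ℤ | (∀ i, |a i| ≤ (H : ℤ) ^ (i.val + 1)) ∧
      ¬ Good d B (qp (fun i => a i.castSucc) (a 4))} = (F : Set (Fin 5 → ℤ)) := by
    ext a
    rw [Finset.mem_coe, hFd a]
    rfl
  rw [hS, Set.ncard_coe_finset]
  -- the fibres
  have hfin : ∀ b : Fin 4 → ℤ, {c : ℤ | |c| ≤ (H : ℤ) ^ 5 ∧ ¬ Good d B (qp b c)} ⊆
      ((Finset.Icc (-((H : ℤ) ^ 5)) ((H : ℤ) ^ 5) : Finset ℤ) : Set ℤ) := by
    intro b c hc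
    rw [Finset.mem_coe, Finset.mem_Icc]
    exact abs_le.mp hc.1
  have hfib : ∀ b : Fin 4 → ℤ, (F.filter fun a => (fun i : Fin 4 => a i.castSucc) = b).card ≤
      {c : ℤ | |c| ≤ (H : ℤ) ^ 5 ∧ ¬ Good d B (qp b c)}.ncard := by
    intro b
    have hf := (Finset.finite_toSet _).subset (hfin b)
    rw [Set.ncard_eq_toFinset_card _ hf]
    apply Finset.card_le_card_of_injOn (fun a => a 4)
    · intro a ha
      rw [Finset.mem_coe, mem_filter, hFd a] at ha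
      rw [Finset.mem_coe, Set.Finite.mem_toFinset]
      refine ⟨ha.1.1 4, ?_⟩
      rw [← ha.2]
      exact ha.1.2
    · intro a ha a' ha' h
      rw [Finset.mem_coe, mem_filter] at ha ha'
      funext i
      refine Fin.lastCases ?_ (fun j => ?_) i
      · exact h
      · have h1 := congrFun (ha.2.trans ha'.2.symm) j
        exact h1
  have hcard : F.card = ∑ b ∈ Q, (F.filter fun a => (fun i : Fin 4 => a i.castSucc) = b).card := by
    apply Finset.card_eq_sum_card_fiberwise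
    intro a ha
    rw [Finset.mem_coe, hFd a] at ha
    rw [Finset.mem_coe, hQ]
    intro i
    exact ha.1 i.castSucc
  have hb1 : ∀ b ∈ Q.filter (fun b => wr b ≠ 0),
      ((F.filter fun a => (fun i : Fin 4 => a i.castSucc) = b).card : ℝ) ≤ C * (H : ℝ) ^ δ := by
    intro b hb
    rw [mem_filter, hQ] at hb
    refine le_trans ?_ (hF H b hH hb.1 hb.2)
    exact_mod_cast hfib b
  have hb2 : ∀ b ∈ Q.filter (fun b => ¬ wr b ≠ 0),
      ((F.filter fun a => (fun i : Fin 4 => a i.castSucc) = b).card : ℝ) ≤ 3 * (H : ℝ) ^ 5 := by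
    intro b _
    have h1 : {c : ℤ | |c| ≤ (H : ℤ) ^ 5 ∧ ¬ Good d B (qp b c)}.ncard ≤
        (Finset.Icc (-((H : ℤ) ^ 5)) ((H : ℤ) ^ 5)).card := by
      rw [← Set.ncard_coe_finset]
      exact Set.ncard_le_ncard (hfin b) (Finset.finite_toSet _)
    have h2 : (((Finset.Icc (-((H : ℤ) ^ 5)) ((H : ℤ) ^ 5)).card : ℕ) : ℤ) =
        2 * (H : ℤ) ^ 5 + 1 := by
      have h3 : (0 : ℤ) ≤ (H : ℤ) ^ 5 := by positivity
      rw [Int.card_Icc, Int.toNat_of_nonneg]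
      · ring
      · linarith
    have h3 : (((Finset.Icc (-((H : ℤ) ^ 5)) ((H : ℤ) ^ 5)).card : ℕ) : ℝ) =
        2 * (H : ℝ) ^ 5 + 1 := by
      exact_mod_cast h2
    have h4 : (((F.filter fun a => (fun i : Fin 4 => a i.castSucc) = b).card : ℕ) : ℝ) ≤
        (((Finset.Icc (-((H : ℤ) ^ 5)) ((H : ℤ) ^ 5)).card : ℕ) : ℝ) := by
      exact_mod_cast (hfib b).trans h1
    have h5 : (1 : ℝ) ≤ (H : ℝ) ^ 5 := one_le_pow₀ hH1
    rw [h3] at h4
    linarith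
  have hdeg : ((Q.filter fun b => ¬ wr b ≠ 0).card : ℝ) ≤ C' * (H : ℝ) ^ 4 := by
    refine le_trans (le_of_eq ?_) (hD H hH).2
    rw [← Set.ncard_coe_finset]
    congr 2
    ext b
    rw [Finset.mem_coe, mem_filter, hQ, not_not]
    rfl
  have hsplit : (F.card : ℝ) = ∑ b ∈ Q.filter (fun b => wr b ≠ 0),
      ((F.filter fun a => (fun i : Fin 4 => a i.castSucc) = b).card : ℝ) +
      ∑ b ∈ Q.filter (fun b => ¬ wr b ≠ 0),
      ((F.filter fun a => (fun i : Fin 4 => a i.castSucc) = b).card : ℝ) := by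
    rw [Finset.sum_filter_add_sum_filter_not, ← Nat.cast_sum, ← hcard]
  rw [hsplit]
  have hs1 := Finset.sum_le_card_nsmul _ _ _ hb1
  have hs2 := Finset.sum_le_card_nsmul _ _ _ hb2
  rw [nsmul_eq_mul] at hs1 hs2
  have hq1 : ((Q.filter fun b => wr b ≠ 0).card : ℝ) ≤ 81 * (H : ℝ) ^ 10 := by
    refine le_trans ?_ hQc
    exact_mod_cast Finset.card_filter_le _ _
  have hp0 : 0 ≤ C * (H : ℝ) ^ δ := by positivity
  have hp : (H : ℝ) ^ (10 + δ) = (H : ℝ) ^ 10 * (H : ℝ) ^ δ := by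
    rw [Real.rpow_add hHpos]
    congr 1
    exact_mod_cast Real.rpow_natCast (H : ℝ) 10
  have hp9 : (H : ℝ) ^ 9 ≤ (H : ℝ) ^ (10 + δ) := by
    rw [hp]
    have h1 : (1 : ℝ) ≤ (H : ℝ) ^ δ := Real.one_le_rpow hH1 hδ.le
    have h2 : (H : ℝ) ^ 9 ≤ (H : ℝ) ^ 10 := pow_le_pow_right₀ hH1 (by norm_num)
    calc (H : ℝ) ^ 9 ≤ (H : ℝ) ^ 10 * 1 := by rw [mul_one]; exact h2
      _ ≤ _ := mul_le_mul_of_nonneg_left h1 (by positivity)
  have ht1 : ((Q.filter fun b => wr b ≠ 0).card : ℝ) * (C * (H : ℝ) ^ δ) ≤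
      81 * C * (H : ℝ) ^ (10 + δ) := by
    rw [hp]
    calc _ ≤ 81 * (H : ℝ) ^ 10 * (C * (H : ℝ) ^ δ) := mul_le_mul_of_nonneg_right hq1 hp0
      _ = _ := by ring
  have ht2 : ((Q.filter fun b => ¬ wr b ≠ 0).card : ℝ) * (3 * (H : ℝ) ^ 5) ≤
      3 * C' * (H : ℝ) ^ (10 + δ) := by
    calc _ ≤ C' * (H : ℝ) ^ 4 * (3 * (H : ℝ) ^ 5) :=
          mul_le_mul_of_nonneg_right hdeg (by positivity)
      _ = 3 * C' * (H : ℝ) ^ 9 := by ring
      _ ≤ _ := mul_le_mul_of_nonneg_left hp9 (by positivity)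
  calc _ ≤ 81 * C * (H : ℝ) ^ (10 + δ) + 3 * C' * (H : ℝ) ^ (10 + δ) :=
        add_le_add (hs1.trans ht1) (hs2.trans ht2)
    _ = _ := by ring

end Pool.Agent.TTC.H42
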